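import Mathlib

set_option autoImplicit false

namespace Pool.Agent.H.MP_46c13c_an
open Set Metric Filter Topology MeasureTheory Complex Asymptotics
open scoped ENNReal NNReal

abbrev E := ℂ × ℂ

instance : (volume : Measure E).IsAddHaarMeasure := Measure.prod.instIsAddHaarMeasure _ _

lemma sc {E : Type*} [NormedAddCommGroup E] [NormedSpace ℝ E] [FiniteDimensional ℝ E]
    [MeasurableSpace E] [BorelSpace E] (μ : Measure E) [μ.IsAddHaarMeasure]
    (L : E ≃L[ℝ] E) (q : E) : ∃ c : ℂ, ∀ (F : E → ℂ) (S : Set E),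
    eLpNorm (fun x => c * F (L (x - q))) 2 (μ.restrict ((fun x => L (x - q)) ⁻¹' S)) =
      eLpNorm F 2 (μ.restrict S) := by
  have := FiniteDimensional.proper_real E
  have e := Measure.isAddLeftInvariant_eq_smul (μ.map L) μ
  have k0 := Measure.addHaarScalarFactor_pos_of_isAddHaarMeasure (μ.map L) μ
  generalize Measure.addHaarScalarFactor (μ.map L) μ = k at e k0
  have hB : MeasurableEmbedding fun x => L (x - q) :=
    ((Homeomorph.subRight q).trans L.toHomeomorph).measurableEmbedding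
  have e2 : μ.map (fun x => L (x - q)) = k • μ := by
    have := Measure.map_map (μ := μ) L.continuous.measurable (measurable_sub_const q)
    rw [map_sub_right_eq_self μ q, e] at this
    exact this.symm
  obtain ⟨c, hc⟩ : ∃ c : ℂ, ‖c‖ₑ * (k ^ (2 : ℝ≥0∞).toReal⁻¹ : ℝ≥0) = 1 :=
    ⟨(((k ^ (2 : ℝ≥0∞).toReal⁻¹)⁻¹ : ℝ≥0) : ℝ), by
      rw [← ofReal_norm, Complex.norm_real, Real.norm_eq_abs, NNReal.abs_eq,
        ENNReal.ofReal_coe_nnreal, ← ENNReal.coe_mul,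
        inv_mul_cancel₀ (NNReal.rpow_pos k0).ne', ENNReal.coe_one]⟩
  refine ⟨c, fun F S => ?_⟩
  have := hB.eLpNorm_map_measure (g := F) (p := 2)
    (μ := μ.restrict ((fun x => L (x - q)) ⁻¹' S))
  rw [← hB.restrict_map, e2, Measure.restrict_smul, eLpNorm_smul_measure_of_ne_top' (by simp)]
    at this
  have e3 : (fun x => c * F (L (x - q))) = c • (F ∘ fun x => L (x - q)) := rfl
  rw [e3, eLpNorm_const_smul, ← this, ENNReal.smul_def, smul_eq_mul, ← mul_assoc, hc, one_mul]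

noncomputable def r1 (x : E) : ℝ := x.1.re + ‖x.1‖ ^ 2 + (‖x.2‖ ^ 2) ^ 3
noncomputable def r2 (x : E) : ℝ := r1 x + ‖x.1‖ ^ 2 + x.2.im ^ 4

lemma r12 (x : E) : r1 x ≤ r2 x := by
  have : 0 ≤ x.2.im ^ 4 := by positivity
  rw [r2]; nlinarith [sq_nonneg ‖x.1‖]

lemma s1 : ContDiff ℝ (⊤ : ℕ∞) r1 :=
  ((reCLM.contDiff.comp contDiff_fst).add (contDiff_fst.norm_sq ℝ)).add
    ((contDiff_snd.norm_sq ℝ).pow 3)
lemma s2 : ContDiff ℝ (⊤ : ℕ∞) r2 :=
  (s1.add (contDiff_fst.norm_sq ℝ)).add ((imCLM.contDiff.comp contDiff_snd).pow 4)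

lemma cn (T : E →ₗ[ℝ] ℂ) (n : ℕ) : ConvexOn ℝ univ fun x : E => ‖T x‖ ^ n :=
  (convexOn_univ_norm.comp_linearMap T).pow (fun _ _ => norm_nonneg _) n

lemma c1 : ConvexOn ℝ univ r1 := by
  have := (((reLm ∘ₗ LinearMap.fst ℝ ℂ ℂ).convexOn convex_univ).add
    (cn (LinearMap.fst ℝ ℂ ℂ) 2)).add (cn (LinearMap.snd ℝ ℂ ℂ) (2 * 3))
  simp only [pow_mul] at this
  exact this
lemma c2 : ConvexOn ℝ univ r2 := by
  have := (Even.convexOn_pow (𝕜 := ℝ) (n := 4) (by decide)).comp_linearMap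
    (imLm ∘ₗ LinearMap.snd ℝ ℂ ℂ)
  exact (c1.add (cn (LinearMap.fst ℝ ℂ ℂ) 2)).add this

lemma neg2 {s : ℝ} (h0 : 0 < s) (h1 : s < 1 / 2) : r2 (((-s : ℝ) : ℂ), 0) < 0 := by
  simp [r2, r1]; nlinarith

lemma grad {r : E → ℝ} (hs : ContDiff ℝ (⊤ : ℕ∞) r) (hc : ConvexOn ℝ univ r) {y : E} (hy : r y < 0)
    (x : E) (hx : r x = 0) : fderiv ℝ r x ≠ 0 := fun h => by
  have d := (hs.differentiable (by simp) x).hasFDerivAt
  rw [h] at d
  have := (hc.comp_affineMap (AffineMap.lineMap x y)).le_slope_of_hasDerivAt (x := 0) (y := 1)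
    trivial trivial one_pos (HasFDerivAt.comp_hasDerivAt_of_eq (0 : ℝ) d
      (AffineMap.hasDerivAt_lineMap (a := x) (b := y) (x := (0 : ℝ))) (by simp))
  simp [slope, hx] at this
  linarith

lemma bd : Bornology.IsBounded {x | r1 x < 0} := by
  refine (isBounded_closedBall (x := (0 : E)) (r := 1)).subset fun x hx => ?_
  have h : r1 x < 0 := hx
  have := neg_le_of_abs_le (abs_re_le_norm x.1)
  have h6 : 0 ≤ (‖x.2‖ ^ 2) ^ 3 := by positivity
  rw [r1] at h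
  have a : ‖x.1‖ ≤ 1 := by nlinarith [norm_nonneg x.1]
  have b : ‖x.2‖ ≤ 1 := by
    by_contra hh
    have := one_le_pow₀ (n := 3) (one_le_pow₀ (n := 2) (not_le.1 hh).le)
    nlinarith [sq_nonneg (‖x.1‖ - 1 / 2)]
  simpa [Prod.norm_def] using ⟨a, b⟩

lemma fr : frontier {x | r1 x < 0} ∩ frontier {x | r2 x < 0} = {0} := by
  refine Subset.antisymm (fun x hx => ?_) (singleton_subset_iff.2 ?_)
  · have a : r1 x = 0 := frontier_lt_subset_eq s1.continuous continuous_const hx.1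
    have b : r2 x = 0 := frontier_lt_subset_eq s2.continuous continuous_const hx.2
    have : 0 ≤ x.2.im ^ 4 := by positivity
    rw [r2, a] at b
    have c : x.1 = 0 := norm_eq_zero.1 (by nlinarith [sq_nonneg ‖x.1‖])
    simp [r1, c] at a
    exact Prod.ext c a
  · have c : (0 : E) ∈ closure {x | r2 x < 0} := by
      refine mem_closure_of_tendsto (b := 𝓝[>] (0 : ℝ)) (f := fun s : ℝ => (((-s : ℝ) : ℂ), 0))
        (tendsto_nhdsWithin_of_tendsto_nhds (Continuous.tendsto' (by fun_prop) _ _ (by simp))) ?_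
      filter_upwards [Ioo_mem_nhdsGT (show (0 : ℝ) < 1 / 2 by norm_num)] with s hs
      exact neg2 hs.1 hs.2
    rw [(isOpen_lt s1.continuous continuous_const).frontier_eq,
      (isOpen_lt s2.continuous continuous_const).frontier_eq]
    exact ⟨⟨closure_mono (fun x hx => (r12 x).trans_lt hx) c, by simp [r1]⟩, c, by simp [r2, r1]⟩

lemma maxp {h : ℂ → ℂ} {ρ : ℝ} (h0 : 0 < ρ) (hd : DifferentiableOn ℂ h (closedBall 0 ρ))
    (hz : h 0 = 0) : ∃ ζ, ‖ζ‖ = ρ ∧ 0 ≤ (h ζ).re := by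
  obtain ⟨z, z1, z2⟩ := exists_mem_frontier_isMaxOn_norm (f := fun z => exp (h z))
    (isBounded_ball (x := (0 : ℂ)) (r := ρ)) (nonempty_ball.2 h0)
    (DifferentiableOn.diffContOnCl (by rw [closure_ball _ h0.ne']; exact hd.cexp))
  rw [frontier_ball _ h0.ne'] at z1
  refine ⟨z, by simpa using z1, ?_⟩
  simpa [hz, norm_exp] using z2 (subset_closure (mem_ball_self h0))

lemma low2 (x : E) {l : ℝ} (l0 : 0 ≤ l) (l1 : l ≤ 1) (h : 2 * l ≤ ‖x‖ ^ 2)
    (h2 : 0 ≤ (x.1 - l * x.2 ^ 2).re) : l ^ 2 ≤ r2 x := by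
  have e : (x.1 - l * x.2 ^ 2).re = x.1.re - l * (x.2.re ^ 2 - x.2.im ^ 2) := by
    simp [sq]
  have e2 : ‖x.2‖ ^ 2 = x.2.re ^ 2 + x.2.im ^ 2 := by rw [Complex.sq_norm, normSq_apply]; ring
  have h6 : 0 ≤ (‖x.2‖ ^ 2) ^ 3 := by positivity
  have k : l * ‖x.2‖ ^ 2 - l ^ 2 + 2 * ‖x.1‖ ^ 2 ≤ r2 x := by
    rw [r2, r1]; nlinarith [sq_nonneg (x.2.im ^ 2 - l)]
  have := mul_nonneg l0 (sq_nonneg ‖x.2‖)
  rw [Prod.norm_def] at h
  rcases le_total ‖x.1‖ ‖x.2‖ with a | a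
  · rw [max_eq_right a] at h; nlinarith [sq_nonneg ‖x.1‖]
  · rw [max_eq_left a] at h; nlinarith

lemma ord2 {γ : ℂ → E} (ha : AnalyticAt ℂ γ 0) (h0 : γ 0 = 0) (hn : ¬ ∀ᶠ ζ in 𝓝 0, γ ζ = 0) :
    ∃ n : ℕ, (γ =O[𝓝 0] fun ζ => ‖ζ‖ ^ n) ∧
      ∀ m : ℕ, ((r2 ∘ γ) =O[𝓝 0] fun ζ => ‖ζ‖ ^ m) → m ≤ 4 * n := by
  obtain ⟨n, g, g1, g2, g3⟩ := ha.exists_eventuallyEq_pow_smul_nonzero_iff.2 hn
  simp only [sub_zero] at g3
  refine ⟨n, .of_bound (‖g 0‖ + 1) ?_, fun m hm => ?_⟩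
  · filter_upwards [g3, g1.continuousAt.norm.eventually_lt_const (lt_add_one _)] with z z1 z2
    rw [z1, norm_smul, norm_pow, norm_pow, norm_norm, mul_comm]
    exact mul_le_mul_of_nonneg_right z2.le (by positivity)
  by_contra hh
  obtain ⟨C, C0, hC⟩ := hm.exists_pos
  set c := min 1 (‖g 0‖ / 2) with hc
  have g0 := norm_pos_iff.2 g2
  have c0 : 0 < c := lt_min one_pos (by linarith)
  have c1 : c ≤ 1 := min_le_left _ _
  obtain ⟨ε, ε0, hε⟩ := Metric.eventually_nhds_iff.1 ((((g3.and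
    (g1.continuousAt.norm.eventually_const_lt (show c < _ from (min_le_right _ _).trans_lt
      (half_lt_self g0)))).and hC.bound).and ha.eventually_analyticAt).and
      ((continuous_const.mul continuous_norm).continuousAt.eventually_lt_const
        (show C * ‖(0 : ℂ)‖ < c ^ 4 / 4 by simp; positivity)))
  set ρ := min (ε / 2) 1 with hρ
  have ρ0 : 0 < ρ := lt_min (by linarith) one_pos
  have ρ1 : ρ ≤ 1 := min_le_right _ _
  have ρ2 : ρ < ε := (min_le_left _ _).trans_lt (half_lt_self ε0)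
  set l := (ρ ^ n * c) ^ 2 / 2 with hl
  obtain ⟨ζ, z1, z2⟩ := maxp (h := fun z => (γ z).1 - l * (γ z).2 ^ 2) ρ0 (fun z hz => by
    have := (hε ((mem_closedBall.1 hz).trans_lt ρ2)).1.2.differentiableAt
    exact DifferentiableAt.differentiableWithinAt (by fun_prop)) (by simp [h0])
  obtain ⟨⟨⟨⟨a1, a2⟩, a3⟩, -⟩, a4⟩ := hε (show dist ζ 0 < ε by simpa [z1] using ρ2)
  have p0 := pow_pos ρ0 n
  have p1 : ρ ^ n * c ≤ 1 := mul_le_one₀ (pow_le_one₀ ρ0.le ρ1) c0.le c1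
  have := low2 (γ ζ) (l := l) (by positivity) (by nlinarith [mul_pos p0 c0]) (by
    rw [hl, a1, norm_smul, norm_pow, z1, mul_div_cancel₀ _ two_ne_zero]
    exact pow_le_pow_left₀ (by positivity) (mul_le_mul_of_nonneg_left a2.le p0.le) 2) z2
  simp only [Function.comp, norm_pow, z1, Pi.mul_apply, Real.norm_of_nonneg ρ0.le] at a3 a4
  have b1 : ρ ^ m ≤ ρ ^ (4 * n + 1) := pow_le_pow_of_le_one ρ0.le ρ1 (by omega)
  have b2 := (this.trans (le_abs_self _)).trans (a3.trans (mul_le_mul_of_nonneg_left b1 C0.le))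
  have b3 := mul_lt_mul_of_pos_right a4 (pow_pos p0 4)
  have e1 : l ^ 2 = c ^ 4 / 4 * (ρ ^ n) ^ 4 := by rw [hl]; ring
  have e2 : C * ρ ^ (4 * n + 1) = C * ρ * (ρ ^ n) ^ 4 := by ring
  linarith

lemma ord1 : (r1 ∘ fun ζ : ℂ => ((0 : ℂ), ζ)) =O[𝓝 0] fun ζ => ‖ζ‖ ^ 6 :=
  .of_bound 1 (.of_forall fun ζ => by simp [r1, ← pow_mul])

lemma ord1' {m : ℕ} (h : (fun ζ : ℂ => ((0 : ℂ), ζ)) =O[𝓝 0] fun ζ => ‖ζ‖ ^ m) : m ≤ 1 := by
  by_contra hh
  obtain ⟨C, C0, hC⟩ := h.exists_pos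
  obtain ⟨z, ⟨⟨z1, z2⟩, z3⟩, z0⟩ := ((((hC.bound.and
    ((continuous_const.mul continuous_norm).continuousAt.eventually_lt_const
      (show C * ‖(0 : ℂ)‖ < 1 by simp))).and (continuous_norm.continuousAt.eventually_lt_const
      (show ‖(0 : ℂ)‖ < 1 by simp))).filter_mono nhdsWithin_le_nhds).and
      (self_mem_nhdsWithin (s := {0}ᶜ))).exists
  have z0 := norm_pos_iff.2 (show z ≠ 0 from z0)
  simp only [Prod.norm_def, norm_zero, max_eq_right z0.le, norm_pow, norm_norm, Pi.mul_apply]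
    at z1 z2
  have := mul_le_mul_of_nonneg_left (pow_le_pow_of_le_one z0.le z3.le (show 2 ≤ m by omega)) C0.le
  nlinarith

noncomputable def Lt (t : ℝ) (h : t ≠ 0) : E ≃L[ℝ] E :=
  LinearEquiv.toContinuousLinearEquiv
  { toFun := fun x => ((x.1 + 6 * t ^ 5 * x.2) / t ^ 10, x.2 / t ^ 3)
    invFun := fun x => (t ^ 10 * x.1 - 6 * t ^ 8 * x.2, t ^ 3 * x.2)
    map_add' := fun x y => by ext <;> simp <;> ring
    map_smul' := fun c x => by ext <;> simp <;> ring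
    left_inv := fun x => by
      have : (t : ℂ) ≠ 0 := by exact_mod_cast h
      ext <;> simp <;> field_simp; ring
    right_inv := fun x => by
      have : (t : ℂ) ≠ 0 := by exact_mod_cast h
      ext <;> simp <;> field_simp; ring }

noncomputable def A (t : ℝ) (y : E) : E := (t ^ 10 * y.1 - 6 * t ^ 8 * y.2 - t ^ 6, t ^ 3 * y.2 + t)

lemma AL {t : ℝ} (h : t ≠ 0) (x : E) : A t (Lt t h (x - (-(t : ℂ) ^ 6, (t : ℂ)))) = x := by
  have : (t : ℂ) ≠ 0 := by exact_mod_cast h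
  ext <;> simp [A, Lt] <;> field_simp <;> ring

noncomputable def σ (t : ℝ) (y : E) : ℝ := 2 * y.2.re + t ^ 2 * ‖y.2‖ ^ 2

lemma rA (t : ℝ) (y : E) : (A t y).1.re + (‖(A t y).2‖ ^ 2) ^ 3 =
    t ^ 10 * (y.1.re + 3 * ‖y.2‖ ^ 2 + σ t y ^ 2 * (3 + t ^ 2 * σ t y)) := by
  simp only [A, σ, Complex.sq_norm, normSq_apply, ← ofReal_pow, sub_re, add_re, add_im, mul_assoc,
    re_ofReal_mul, im_ofReal_mul, ofReal_re, ofReal_im, show (6 : ℂ) = (6 : ℝ) by simp]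
  ring

lemma inV {t : ℝ} (h : t ≠ 0) {y : E} (hy : r1 (A t y) < 0) : y.1.re + 3 * ‖y.2‖ ^ 2 < 0 := by
  have e := rA t y
  have : 0 ≤ 3 + t ^ 2 * σ t y := by
    rw [σ, Complex.sq_norm, normSq_apply]
    nlinarith [sq_nonneg (1 + t ^ 2 * y.2.re), sq_nonneg (t ^ 2 * y.2.im)]
  have := mul_nonneg (sq_nonneg (σ t y)) this
  have t0 : 0 < t ^ 10 := by positivity
  rw [r1] at hy
  by_contra hh
  nlinarith [sq_nonneg ‖(A t y).1‖, mul_nonneg t0.le (not_lt.1 hh), mul_nonneg t0.le this]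

lemma inU : ∀ᶠ p : ℝ × E in 𝓝 (0, (-1, 0)), p.1 ≠ 0 → r2 (A p.1 p.2) < 0 := by
  have c : Continuous fun p : ℝ × E => p.2.1.re + 3 * ‖p.2.2‖ ^ 2 + σ p.1 p.2 ^ 2 *
      (3 + p.1 ^ 2 * σ p.1 p.2) + p.1 ^ 2 * (2 * ‖(p.1 : ℂ) ^ 4 * p.2.1 - 6 * p.1 ^ 2 * p.2.2 - 1‖ ^ 2
        + p.2.2.im ^ 4) := by unfold σ; fun_prop
  filter_upwards [(c.tendsto (0, (-1, 0))).eventually_lt_const (u := 0) (by simp [σ])] with p hp h0
  have e := rA p.1 p.2
  have e1 : ‖(A p.1 p.2).1‖ ^ 2 =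
      p.1 ^ 12 * ‖(p.1 : ℂ) ^ 4 * p.2.1 - 6 * p.1 ^ 2 * p.2.2 - 1‖ ^ 2 := by
    rw [show (A p.1 p.2).1 = p.1 ^ 6 * ((p.1 : ℂ) ^ 4 * p.2.1 - 6 * p.1 ^ 2 * p.2.2 - 1) by
      simp only [A]; ring, norm_mul, mul_pow, norm_pow, norm_real, Real.norm_eq_abs, ← pow_mul,
      Even.pow_abs (by decide)]
  have e2 : (A p.1 p.2).2.im = p.1 ^ 3 * p.2.2.im := by simp [A, ← ofReal_pow]
  have := mul_neg_of_pos_of_neg (show 0 < p.1 ^ 10 by positivity) hp
  rw [r2, r1, e1, e2]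
  linarith

noncomputable def F (y : E) : ℂ := ((1 - y.1) ^ 3)⁻¹
def V : Set E := {y | y.1.re + 3 * ‖y.2‖ ^ 2 < 0}

lemma mF : Measurable F := by unfold F; fun_prop

lemma FV : eLpNorm F 2 (volume.restrict V) < ⊤ := by
  have hV : MeasurableSet V := (isOpen_lt (by fun_prop) continuous_const).measurableSet
  refine MemLp.eLpNorm_lt_top ((memLp_two_iff_integrable_sq_norm mF.aestronglyMeasurable).2
    ((((integrable_one_add_norm (r := 6) (by simp; norm_num)).const_mul (3 ^ 6)).integrableOn).mono'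
      (mF.norm.pow_const 2).aestronglyMeasurable (ae_restrict_of_forall_mem hV fun y hy => ?_)))
  have hy : y.1.re + 3 * ‖y.2‖ ^ 2 < 0 := hy
  have a : 1 - y.1.re ≤ ‖1 - y.1‖ := by simpa using re_le_norm (1 - y.1)
  have b : ‖y.1‖ ≤ 1 + ‖1 - y.1‖ := by simpa using norm_sub_le 1 (1 - y.1)
  have c : 1 + ‖y‖ ≤ 3 * ‖1 - y.1‖ := by
    rw [Prod.norm_def]
    rcases le_total ‖y.1‖ ‖y.2‖ with h | h
    · rw [max_eq_right h]; nlinarith [sq_nonneg (‖y.2‖ - 1)]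
    · rw [max_eq_left h]; nlinarith [sq_nonneg ‖y.2‖]
  have d : 0 < ‖1 - y.1‖ := by nlinarith [norm_nonneg y]
  rw [Real.rpow_neg (by positivity), show (6 : ℝ) = (6 : ℕ) by simp, Real.rpow_natCast, F,
    norm_pow, norm_norm, norm_inv, norm_pow, inv_pow, ← pow_mul, ← div_eq_mul_inv,
    inv_eq_one_div, div_le_div_iff₀ (by positivity) (by positivity), one_mul, ← mul_pow]
  exact pow_le_pow_left₀ (by positivity) c _

theorem nc : ∃ (f : ℕ → E → ℂ) (C : ℝ≥0∞), C < ⊤ ∧ (∀ j, DifferentiableOn ℂ (f j) {x | r1 x < 0} ∧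
    eLpNorm (f j) 2 (volume.restrict {x | r1 x < 0}) ≤ C) ∧
    ∀ φ : ℕ → ℕ, StrictMono φ → ∀ g, MemLp g 2 (volume.restrict {x | r2 x < 0}) →
      ¬ Tendsto (fun j => eLpNorm (f (φ j) - g) 2 (volume.restrict {x | r2 x < 0})) atTop (𝓝 0) := by
  obtain ⟨t, t0, tl⟩ : ∃ t : ℕ → ℝ, (∀ j, t j ≠ 0) ∧ Tendsto t atTop (𝓝 0) :=
    ⟨_, fun j => by positivity, tendsto_one_div_add_atTop_nhds_zero_nat (𝕜 := ℝ)⟩
  set B := fun j (x : E) => Lt (t j) (t0 j) (x - (-(t j : ℂ) ^ 6, (t j : ℂ))) with hB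
  have AB : ∀ j x, A (t j) (B j x) = x := fun j => AL (t0 j)
  choose c hc using fun j => sc volume (Lt (t j) (t0 j)) (-(t j : ℂ) ^ 6, (t j : ℂ))
  have s1V : ∀ j, {x | r1 x < 0} ⊆ B j ⁻¹' V := fun j x hx => inV (t0 j) (by rwa [AB])
  have cB : ∀ j, Continuous (B j) := fun j => by fun_prop
  refine ⟨fun j x => c j * F (B j x), _, FV, fun j => ⟨fun x hx => ?_,
    (eLpNorm_mono_measure _ (Measure.restrict_mono (s1V j) le_rfl)).trans_eq (hc j F V)⟩,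
    fun φ hφ g hg hl => ?_⟩
  · have h : (B j x).1.re + 3 * ‖(B j x).2‖ ^ 2 < 0 := s1V j hx
    have h1 : (1 - (B j x).1) ^ 3 ≠ 0 := pow_ne_zero _ fun e => by
      rw [← sub_eq_zero.1 e] at h; simp at h; nlinarith [sq_nonneg ‖(B j x).2‖]
    have h2 : DifferentiableAt ℂ (fun x : E => (1 - (B j x).1) ^ 3) x := by
      have : (fun x : E => (B j x).1) = fun x : E => (x.1 - -(t j : ℂ) ^ 6 + 6 * (t j : ℂ) ^ 5 *
        (x.2 - t j)) / (t j : ℂ) ^ 10 := rfl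
      exact (DifferentiableAt.const_sub (by rw [this]; fun_prop) 1).pow 3
    exact ((h2.inv h1).const_mul _).differentiableWithinAt
  obtain ⟨δ, δ0, hδ⟩ := Metric.eventually_nhds_iff_ball.1 inU
  set U := ball ((-1, 0) : E) (min δ 1) with hU
  have k0 : 0 < eLpNorm F 2 (volume.restrict U) := by
    rw [pos_iff_ne_zero, Ne, eLpNorm_eq_zero_iff mF.aestronglyMeasurable two_ne_zero]
    intro h
    have : (ae (volume.restrict U)).NeBot := ae_restrict_neBot.2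
      (measure_ball_pos _ _ (lt_min δ0 one_pos)).ne'
    obtain ⟨y, y1, y2⟩ := (h.and (ae_restrict_mem measurableSet_ball)).exists
    have : ‖y.1 - -1‖ < 1 := ((norm_fst_le (y - (-1, 0))).trans_lt (mem_ball_iff_norm.1 y2)).trans_le
      (min_le_right _ _)
    simp [F, sub_eq_zero] at y1
    rw [← y1] at this
    norm_num at this
  obtain ⟨ε, ε0, hε⟩ : ∃ ε : ℝ≥0, 0 < ε ∧ (ε : ℝ≥0∞) + ε < eLpNorm F 2 (volume.restrict U) := by
    obtain ⟨r, r0, r1⟩ := ENNReal.lt_iff_exists_nnreal_btwn.1 k0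
    refine ⟨r / 2, by simpa using r0, ?_⟩
    rwa [← ENNReal.coe_add, add_halves]
  obtain ⟨η, η0, hη⟩ := hg.eLpNorm_indicator_le one_le_two (by simp) (ε := ε) ε0
  obtain ⟨ρ, ρ0, hρ⟩ : ∃ ρ, 0 < ρ ∧ volume (closedBall (0 : E) ρ) ≤ ENNReal.ofReal η := by
    have := tendsto_measure_cthickening_of_isCompact (μ := (volume : Measure E))
      (isCompact_singleton (x := 0))
    rw [measure_singleton] at this
    obtain ⟨ρ, a, b⟩ := (((this.eventually (ge_mem_nhds (ENNReal.ofReal_pos.2 η0))).filter_mono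
      nhdsWithin_le_nhds).and (self_mem_nhdsWithin (s := Ioi 0))).exists
    exact ⟨ρ, b, by rwa [cthickening_singleton _ (le_of_lt b)] at a⟩
  have un : ∀ᶠ s : ℝ in 𝓝 0, ∀ y ∈ closedBall ((-1, 0) : E) 1, ‖A s y‖ < ρ :=
    (isCompact_closedBall _ _).eventually_forall_of_forall_eventually fun y _ =>
      (Continuous.tendsto (f := fun p : ℝ × E => ‖A p.1 p.2‖) (by unfold A; fun_prop)
        (0, y)).eventually_lt_const (by simpa [A] using ρ0)
  have tφ := tl.comp hφ.tendsto_atTop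
  obtain ⟨j, ⟨j1, j2⟩, j3⟩ := (((tφ.eventually un).and (tφ.eventually (ball_mem_nhds _ δ0))).and
    (hl.eventually (ge_mem_nhds (ENNReal.coe_pos.2 ε0)))).exists
  have mS : MeasurableSet (B (φ j) ⁻¹' U) := (isOpen_ball.preimage (cB _)).measurableSet
  have S2 : B (φ j) ⁻¹' U ⊆ {x | r2 x < 0} := fun x hx => by
    have := hδ (t (φ j), B (φ j) x) (by
      rw [← ball_prod_same]; exact ⟨j2, ball_subset_ball (min_le_left _ _) hx⟩) (t0 _)
    rwa [AB] at this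
  have S3 : B (φ j) ⁻¹' U ⊆ closedBall 0 ρ := fun x hx => by
    have := j1 _ (ball_subset_closedBall (ball_subset_ball (min_le_right _ _) hx))
    rw [Function.comp, AB] at this
    simpa using this.le
  have a1 := hη _ mS ((Measure.restrict_le_self _).trans ((measure_mono S3).trans hρ))
  rw [eLpNorm_indicator_eq_eLpNorm_restrict mS, Measure.restrict_restrict_of_subset S2,
    ENNReal.ofReal_coe_nnreal] at a1
  have a2 := (eLpNorm_mono_measure _ (Measure.restrict_mono S2 le_rfl)).trans j3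
  have mg := hg.1.mono_measure (Measure.restrict_mono S2 le_rfl)
  have a3 := eLpNorm_add_le (((((mF.comp (cB (φ j)).measurable).const_mul
    (c (φ j))).aestronglyMeasurable).sub mg)) mg one_le_two
  rw [sub_add_cancel] at a3
  exact hε.not_ge ((hc (φ j) F U).ge.trans (a3.trans (add_le_add a2 a1)))

end Pool.Agent.H.MP_46c13c_an
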